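import Pool.Agent.Q238.NL.IbM
import Pool.Agent.Q120.NL.Stm

/-!
# Project NL (helper120), job DE: decay away from the zeros, abscissa `Λ / m`
(`Pool/Agent/Q211/GB/Dec.lean` with `m ≥ 16` in place of `16`)
-/

set_option autoImplicit false

namespace Pool.Agent.Q238.NL

open Complex MeasureTheory Filter Topology Set
open Pool.Agent.Q286.BD (cl Lam ML Lap Wt V Fm)
open Pool.Agent.Q286.GB
open Pool.Agent.Q296.BD (pz pz_eq pz_eq' Lam_ge Lam_two logLam ML_le ML_nonneg exp_Lam bdd_of_ev ev_log_le f2 f3 f4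
  integrable_gev exp_Lam_le lap_zero lap_diff contour tail poly_exp)

lemma exp_Lam_leM (t : ℝ) {m : ℝ} (hm : 16 ≤ m) :
    Real.exp (2 * Lam t / m) ≤ 2 * (1 + |t|) ^ (2 / m) := by
  have hm0 : 0 < m := by linarith
  have h1 : Real.exp (2 * Lam t / m) = (|t| + 16) ^ (2 / m) := by
    rw [← exp_Lam]; congr 1; ring
  rw [h1]
  have h2 : (|t| + 16) ^ (2 / m) ≤ (16 * (1 + |t|)) ^ (2 / m) :=
    Real.rpow_le_rpow (by positivity) (by linarith [abs_nonneg t]) (by positivity)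
  rw [Real.mul_rpow (by norm_num) (by positivity)] at h2
  have h3 : (16 : ℝ) ^ (2 / m) ≤ 2 := by
    have h5 : 2 / m ≤ 1 / 8 := by
      rw [div_le_div_iff₀ hm0 (by norm_num)]; linarith
    have h4 : (16 : ℝ) ^ (2 / m) ≤ (2 ^ (8 : ℝ)) ^ (1 / 8 : ℝ) :=
      (Real.rpow_le_rpow_of_exponent_le (by norm_num) h5).trans
        (Real.rpow_le_rpow (by norm_num) (by norm_num) (by norm_num))
    rw [← Real.rpow_mul (by norm_num)] at h4
    norm_num at h4 ⊢
    exact h4
  have h5 : (16 : ℝ) ^ (2 / m) * (1 + |t|) ^ (2 / m) ≤ 2 * (1 + |t|) ^ (2 / m) :=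
    mul_le_mul_of_nonneg_right h3 (by positivity)
  linarith

/-- the pointwise bound -/
theorem ptb (h1 : S_RATIO) (h2 : S_LOWB) (h3 : S_UPL) (h4 : S_PRH) (O : Obj) (hRH : RH O.toLFn)
    {m : ℝ} (hm : 16 ≤ m) :
    ∃ β0 : ℝ, 0 < β0 ∧ β0 < 1 ∧ ∀ β : ℝ, β0 < β → β < 1 →
    ∀ φ : ℝ → ℝ, Wt β φ → ∃ C L0 : ℝ, 0 < C ∧ 1 ≤ L0 ∧ ∀ L : ℝ, L0 ≤ L → ∀ t : ℝ, |t| ≤ Real.exp ((m - 6) * L) →
    ‖O.L (cl t) * AA O.toLFn φ L (cl t)‖ ≤ C * (1 + |t|) ^ (4 / m) := by
  have hm0 : 0 < m := by linarith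
  obtain ⟨β0, hb0, hb1, H⟩ := ib h1 h2 h3 O hRH hm
  refine ⟨β0, hb0, hb1, fun β hβ0 hβ1 φ hφ => ?_⟩
  obtain ⟨C, c, hC, hc, hI⟩ := H β hβ0 hβ1 φ hφ
  have hβ : 0 < β := by linarith
  have hint := integrable_gev hc hβ
  set G : ℝ := ∫ K : ℝ, Real.exp (-(c * |K| ^ β)) with hG
  have hG0 : 0 ≤ G := integral_nonneg fun K => (Real.exp_pos _).le
  refine ⟨2 * C * (G + 1), 1, by positivity, le_rfl, fun L hL t ht => ?_⟩
  have hL0 : 0 < L := by linarith
  have hΛ := Lam_two t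
  have ha : 0 < Lam t / m := by positivity
  obtain ⟨h5, h6⟩ := h4 O hRH β φ hβ hφ L (Lam t / m) t hL0 ha
  rw [h6]
  have h7 : O.L (cl t) * (1 / (2 * (Real.pi : ℂ)) * ∫ K : ℝ,
      (O.L (cl t + (((Lam t / m : ℝ) : ℂ) + (K : ℂ) * I) / (L : ℂ)))⁻¹ *
        Lap φ (((Lam t / m : ℝ) : ℂ) + (K : ℂ) * I) / (((Lam t / m : ℝ) : ℂ) + (K : ℂ) * I)) =
      1 / (2 * (Real.pi : ℂ)) * ∫ K : ℝ, O.L (cl t) *
      ((O.L (cl t + (((Lam t / m : ℝ) : ℂ) + (K : ℂ) * I) / (L : ℂ)))⁻¹ *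
        Lap φ (((Lam t / m : ℝ) : ℂ) + (K : ℂ) * I) / (((Lam t / m : ℝ) : ℂ) + (K : ℂ) * I)) := by
    rw [integral_const_mul]; ring
  rw [h7, norm_mul]
  have h8 : ‖(1 / (2 * (Real.pi : ℂ)))‖ ≤ 1 := by
    rw [norm_div, norm_one, norm_mul, Complex.norm_real]
    simp only [Complex.norm_ofNat, Real.norm_eq_abs, abs_of_pos Real.pi_pos]
    rw [div_le_one (by positivity)]
    linarith [Real.pi_gt_three]
  have h9 : ‖∫ K : ℝ, O.L (cl t) *
      ((O.L (cl t + (((Lam t / m : ℝ) : ℂ) + (K : ℂ) * I) / (L : ℂ)))⁻¹ *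
        Lap φ (((Lam t / m : ℝ) : ℂ) + (K : ℂ) * I) / (((Lam t / m : ℝ) : ℂ) + (K : ℂ) * I))‖ ≤
      ∫ K : ℝ, C * Real.exp (2 * Lam t / m) * Real.exp (-(c * |K| ^ β)) := by
    apply norm_integral_le_of_norm_le (hint.const_mul _)
    exact Eventually.of_forall fun K => hI L hL t ht K
  have h9b : ∫ K : ℝ, C * Real.exp (2 * Lam t / m) * Real.exp (-(c * |K| ^ β)) =
      C * Real.exp (2 * Lam t / m) * G := by rw [integral_const_mul]
  rw [h9b] at h9
  have h10 := exp_Lam_leM t hm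
  have h11 : (1 + |t|) ^ (2 / m) ≤ (1 + |t|) ^ (4 / m) :=
    Real.rpow_le_rpow_of_exponent_le (by linarith [abs_nonneg t])
      (div_le_div_of_nonneg_right (by norm_num) hm0.le)
  have h12 : 0 ≤ (1 + |t|) ^ (4 / m) := by positivity
  calc _ ≤ 1 * (C * Real.exp (2 * Lam t / m) * G) :=
        mul_le_mul h8 h9 (norm_nonneg _) (by norm_num)
    _ ≤ C * (2 * (1 + |t|) ^ (4 / m)) * G := by
        rw [one_mul]
        apply mul_le_mul_of_nonneg_right _ hG0
        exact mul_le_mul_of_nonneg_left (by linarith) hC.le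
    _ ≤ 2 * C * (G + 1) * (1 + |t|) ^ (4 / m) := by nlinarith [mul_nonneg hC.le h12]

/-- decay away from the zeros, for small distances -/
theorem dec1 (h1 : S_RATIO) (h2 : S_LOWB) (h3 : S_UPL) (h4 : S_PRH) (h5 : S_HH) (O : Obj) (hRH : RH O.toLFn)
    {m : ℝ} (hm : 16 ≤ m) :
    ∃ β0 : ℝ, 0 < β0 ∧ β0 < 1 ∧ ∀ β : ℝ, β0 < β → β < 1 →
    ∀ φ : ℝ → ℝ, Wt β φ → ∃ C L0 : ℝ, 0 < C ∧ 1 ≤ L0 ∧ ∀ L : ℝ, L0 ≤ L → ∀ t d : ℝ, |t| ≤ Real.exp ((m - 6) * L) →
    0 < d → d ≤ O.η → (∀ g : ℝ, O.L (cl g) = 0 → d ≤ |g - t|) →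
    ‖O.L (cl t) * AA O.toLFn φ L (cl t) - 1‖ ≤ C * (1 + |t|) ^ (6 / m) / (1 + L * d) := by
  have hm0 : 0 < m := by linarith
  obtain ⟨βi, hbi0, hbi1, Hi⟩ := ib h1 h2 h3 O hRH hm
  obtain ⟨βp, hbp0, hbp1, Hp⟩ := ptb h1 h2 h3 h4 O hRH hm
  obtain ⟨CH, hCH, HH⟩ := h5 O hRH
  refine ⟨max βi βp, lt_max_of_lt_left hbi0, max_lt hbi1 hbp1, fun β hβ0 hβ1 φ hφ => ?_⟩
  have hβi : βi < β := lt_of_le_of_lt (le_max_left _ _) hβ0
  have hβp : βp < β := lt_of_le_of_lt (le_max_right _ _) hβ0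
  have hβ : 0 < β := by linarith
  obtain ⟨Ci, ci, hCi, hci, hI⟩ := Hi β hβi hβ1 φ hφ
  obtain ⟨Cp, L0, hCp, hL0, hP⟩ := Hp β hβp hβ1 φ hφ
  obtain ⟨ε, Cφ, c, hε, hCφ, hc, hdec⟩ := hφ.dec
  set C1 : ℝ := 4 + 2 * (CH + 1) / ε + 2 / c + 4 / ci + (CH + 1) with hC1d
  have e1 : 0 < 2 * (CH + 1) / ε := by positivity
  have e2 : 0 < 2 / c := by positivity
  have e3 : 0 < 4 / ci := by positivity
  have hC1a : 4 ≤ C1 := by rw [hC1d]; linarith
  have hC1b : 2 * (CH + 1) ≤ ε * C1 := by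
    have : 2 * (CH + 1) / ε ≤ C1 := by rw [hC1d]; linarith
    rwa [div_le_iff₀' hε] at this
  have hC1c : 2 ≤ c * C1 := by
    have : 2 / c ≤ C1 := by rw [hC1d]; linarith
    rwa [div_le_iff₀' hc] at this
  have hC1e : 4 ≤ ci * C1 := by
    have : 4 / ci ≤ C1 := by rw [hC1d]; linarith
    rwa [div_le_iff₀' hci] at this
  have hC1f : CH + 1 ≤ C1 := by rw [hC1d]; linarith
  set κ : ℝ := min 1 (ε / 2) with hκd
  have hκ : 0 < κ := by rw [hκd]; positivity
  obtain ⟨C5, hC5, H5⟩ := poly_exp κ (β / 2) hκ (by positivity)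
  set G2 : ℝ := ∫ K : ℝ, Real.exp (-(ci / 2 * |K| ^ β)) with hG2
  have hG20 : 0 ≤ G2 := integral_nonneg fun K => (Real.exp_pos _).le
  set e : ℝ := β / m with hed
  have he : 0 < e := by rw [hed]; positivity
  set M : ℝ := Ci * G2 + Cφ with hM
  have hM0 : 0 < M := by rw [hM]; positivity
  set C6 : ℝ := 1 + 2 * (C1 / e) ^ (2 / β) with hC6
  have hC60 : 0 < C6 := by rw [hC6]; positivity
  refine ⟨(Cp + 1) * C6 + M * C5, L0, by positivity, hL0, fun L hL t d ht hd hd1 hz => ?_⟩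
  have hL1 : 1 ≤ L := hL0.trans hL
  have hLp : 0 < L := by linarith
  set D : ℝ := L * d with hD
  have hDp : 0 < D := by rw [hD]; positivity
  set Λ : ℝ := Lam t with hΛd
  have hΛ : 2 ≤ Λ := Lam_two t
  set X : ℝ := D ^ (β / 2) with hX
  have hX0 : 0 < X := by rw [hX]; positivity
  have ht1 : 1 ≤ 1 + |t| := by linarith [abs_nonneg t]
  have hT38 : 1 ≤ (1 + |t|) ^ (6 / m) := Real.one_le_rpow ht1 (by positivity)
  rw [le_div_iff₀ (by positivity)]
  rcases le_or_gt X (C1 * Λ) with hcase | hcase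
  · -- near the zeros
    have q1 := hP L hL t ht
    have q2 : ‖O.L (cl t) * AA O.toLFn φ L (cl t) - 1‖ ≤ (Cp + 1) * (1 + |t|) ^ (4 / m) := by
      have q3 : ‖O.L (cl t) * AA O.toLFn φ L (cl t) - 1‖ ≤
          ‖O.L (cl t) * AA O.toLFn φ L (cl t)‖ + 1 := by
        have := norm_sub_le (O.L (cl t) * AA O.toLFn φ L (cl t)) 1
        rwa [norm_one] at this
      have q4 : 1 ≤ (1 + |t|) ^ (4 / m) := Real.one_le_rpow ht1 (by positivity)
      linarith
    have q3 : 1 + D ≤ C6 * (1 + |t|) ^ (2 / m) := by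
      have q4 : D = X ^ (2 / β) := by
        rw [hX, ← Real.rpow_mul hDp.le]
        have : β / 2 * (2 / β) = 1 := by field_simp
        rw [this, Real.rpow_one]
      have q5 : X ^ (2 / β) ≤ (C1 * Λ) ^ (2 / β) :=
        Real.rpow_le_rpow hX0.le hcase (by positivity)
      have q6 : Λ ≤ (|t| + 16) ^ e / e := Real.log_le_rpow_div (by positivity) he
      have q7 : C1 * Λ ≤ C1 / e * (|t| + 16) ^ e := by
        calc C1 * Λ ≤ C1 * ((|t| + 16) ^ e / e) := mul_le_mul_of_nonneg_left q6 (by linarith)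
          _ = _ := by ring
      have q8 : (C1 * Λ) ^ (2 / β) ≤ (C1 / e * (|t| + 16) ^ e) ^ (2 / β) :=
        Real.rpow_le_rpow (by positivity) q7 (by positivity)
      have q9 : (C1 / e * (|t| + 16) ^ e) ^ (2 / β) = (C1 / e) ^ (2 / β) * (|t| + 16) ^ (2 / m) := by
        rw [Real.mul_rpow (by positivity) (by positivity), ← Real.rpow_mul (by positivity)]
        congr 2
        rw [hed]
        field_simp
      have q10 : (|t| + 16) ^ (2 / m) ≤ 2 * (1 + |t|) ^ (2 / m) := by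
        have := exp_Lam_leM t hm
        have q11 : Real.exp (2 * Lam t / m) = (|t| + 16) ^ (2 / m) := by
          rw [← exp_Lam]; congr 1; ring
        rwa [q11] at this
      have q11 : 1 ≤ (1 + |t|) ^ (2 / m) := Real.one_le_rpow ht1 (by positivity)
      have q12 : (C1 / e) ^ (2 / β) * (|t| + 16) ^ (2 / m) ≤
          (C1 / e) ^ (2 / β) * (2 * (1 + |t|) ^ (2 / m)) :=
        mul_le_mul_of_nonneg_left q10 (by positivity)
      rw [hC6]
      have q13 : (1 + 2 * (C1 / e) ^ (2 / β)) * (1 + |t|) ^ (2 / m) =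
        (1 + |t|) ^ (2 / m) + (C1 / e) ^ (2 / β) * (2 * (1 + |t|) ^ (2 / m)) := by ring
      rw [q13]
      linarith
    have q4 : (1 + |t|) ^ (4 / m) * (1 + |t|) ^ (2 / m) = (1 + |t|) ^ (6 / m) := by
      rw [← Real.rpow_add (by linarith), ← add_div]; norm_num
    calc ‖O.L (cl t) * AA O.toLFn φ L (cl t) - 1‖ * (1 + D) ≤
        ((Cp + 1) * (1 + |t|) ^ (4 / m)) * (C6 * (1 + |t|) ^ (2 / m)) :=
          mul_le_mul q2 q3 (by positivity) (by positivity)
      _ = (Cp + 1) * C6 * ((1 + |t|) ^ (4 / m) * (1 + |t|) ^ (2 / m)) := by ring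
      _ = (Cp + 1) * C6 * (1 + |t|) ^ (6 / m) := by rw [q4]
      _ ≤ ((Cp + 1) * C6 + M * C5) * (1 + |t|) ^ (6 / m) := by
          apply mul_le_mul_of_nonneg_right _ (by linarith)
          have : 0 ≤ M * C5 := by positivity
          linarith
  · -- far from the zeros
    have hXΛ : 4 * Λ ≤ X := by
      have : 4 * Λ ≤ C1 * Λ := mul_le_mul_of_nonneg_right hC1a (by linarith)
      linarith
    have hX8 : 8 ≤ X := by linarith
    have hD1 : 1 ≤ D := by
      by_contra hh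
      push Not at hh
      have : X ≤ 1 := Real.rpow_le_one hDp.le hh.le (by positivity)
      linarith
    have hXs : X ≤ D ^ (1 / 2 : ℝ) := Real.rpow_le_rpow_of_exponent_le hD1 (by linarith)
    have hDs : D ^ (1 / 2 : ℝ) * D ^ (1 / 2 : ℝ) = D := by
      rw [← Real.rpow_add hDp]; norm_num
    have hXD : 4 * X ≤ D := by
      have h4D : 4 ≤ D ^ (1 / 2 : ℝ) := by linarith
      calc 4 * X ≤ D ^ (1 / 2 : ℝ) * D ^ (1 / 2 : ℝ) :=
            mul_le_mul h4D hXs hX0.le (by linarith)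
        _ = D := hDs
    have hDβ : X * X = D ^ β := by
      rw [hX, ← Real.rpow_add hDp]; congr 1; ring
    have hhβ : C1 * X ≤ (D / 2) ^ β := by
      rw [Real.div_rpow hDp.le (by norm_num), le_div_iff₀ (by positivity), ← hDβ]
      have : (2 : ℝ) ^ β ≤ 2 := by
        have := Real.rpow_le_rpow_of_exponent_le (by norm_num : (1 : ℝ) ≤ 2) hβ1.le
        rwa [Real.rpow_one] at this
      have h7 : 2 * C1 ≤ X := by
        have : C1 * 2 ≤ C1 * Λ := mul_le_mul_of_nonneg_left hΛ (by linarith)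
        linarith
      calc C1 * X * 2 ^ β ≤ C1 * X * 2 := mul_le_mul_of_nonneg_left this (by positivity)
        _ = (2 * C1) * X := by ring
        _ ≤ X * X := mul_le_mul_of_nonneg_right h7 hX0.le
    set a : ℝ := Λ / m with had
    have ha : 0 < a := by rw [had]; positivity
    have haΛ : a ≤ Λ := by rw [had]; exact div_le_self (by linarith) (by linarith)
    have haX : a ≤ X := by linarith
    set h : ℝ := D / 2 with hhd
    have hh : 0 < h := by rw [hhd]; linarith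
    have hh1 : 1 ≤ h := by rw [hhd]; linarith
    have hζ : O.L (cl t) ≠ 0 := by
      intro h0
      have := hz t h0
      rw [sub_self, abs_zero] at this
      linarith
    -- the region
    have hreg : ∀ z : ℂ, -X ≤ z.re → z.re ≤ a → -h ≤ z.im → z.im ≤ h →
        ‖O.L (cl t)‖ ≤ (|t| + 2) ^ CH * ‖O.L (cl t + z / L)‖ ∧
        O.L (cl t + z / L) ≠ 0 := by
      intro z z1 z2 z3 z4
      have w1 : (z / (L : ℂ)).re = z.re / L := by
        rw [Complex.div_ofReal_re]
      have w2 : (z / (L : ℂ)).im = z.im / L := by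
        rw [Complex.div_ofReal_im]
      have w3 : |(z / (L : ℂ)).re| ≤ d / 4 := by
        rw [w1, abs_div, abs_of_pos hLp, div_le_iff₀ hLp, abs_le]
        have : d / 4 * L = D / 4 := by rw [hD]; ring
        rw [this]
        constructor <;> linarith
      have w4 : |(z / (L : ℂ)).im| ≤ d / 2 := by
        rw [w2, abs_div, abs_of_pos hLp, div_le_iff₀ hLp, abs_le]
        have : d / 2 * L = D / 2 := by rw [hD]; ring
        rw [this]
        constructor <;> linarith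
      have w5 := HH t d hd hd1 hz (z / L) w3 w4
      refine ⟨w5, ?_⟩
      · intro w6
        rw [w6, norm_zero, mul_zero] at w5
        exact hζ (norm_le_zero_iff.1 w5)
    have hTC : (|t| + 2) ^ CH ≤ Real.exp (CH * Λ) := by
      have : Real.exp (CH * Λ) = (|t| + 16) ^ CH := by
        rw [mul_comm]; exact exp_Lam t CH
      rw [this]
      exact Real.rpow_le_rpow (by positivity) (by linarith) hCH.le
    -- the function
    set G : ℂ → ℂ := fun z => O.L (cl t) * (O.L (cl t + z / L))⁻¹ * Lap φ z with hG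
    set U : Set ℂ := {s | O.L s ≠ 0} with hU
    have hUo : IsOpen U := isOpen_ne_fun O.entire.continuous continuous_const
    set Ω : Set ℂ := (fun z : ℂ => cl t + z / L) ⁻¹' U with hΩd
    have hΩ : IsOpen Ω := hUo.preimage (by fun_prop)
    have hGd : DifferentiableOn ℂ G Ω := by
      intro z hz'
      apply DifferentiableAt.differentiableWithinAt
      have hz2 : O.L (cl t + z / L) ≠ 0 := hz'
      have g1 : DifferentiableAt ℂ (fun z : ℂ => cl t + z / L) z := by fun_prop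
      have g2 : DifferentiableAt ℂ (fun z : ℂ => O.L (cl t + z / L)) z :=
        DifferentiableAt.comp z (O.entire _) g1
      exact ((g2.inv hz2).const_mul _).mul (lap_diff hφ z)
    have hGn : ∀ z : ℂ, -X ≤ z.re → z.re ≤ a → -h ≤ z.im → z.im ≤ h →
        ‖G z‖ ≤ Real.exp (CH * Λ) * (Cφ * Real.exp (max z.re 0 - ε * max (-z.re) 0 - c * |z.im| ^ β)) := by
      intro z z1 z2 z3 z4
      obtain ⟨w1, w3⟩ := hreg z z1 z2 z3 z4
      rw [hG]
      simp only
      rw [norm_mul, norm_mul, norm_inv]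
      apply mul_le_mul _ (hdec z) (norm_nonneg _) (Real.exp_pos _).le
      rw [← div_eq_mul_inv, div_le_iff₀ (norm_pos_iff.2 w3)]
      exact w1.trans (mul_le_mul_of_nonneg_right hTC (norm_nonneg _))
    have hG0 : G 0 = 1 := by
      rw [hG]
      simp only [zero_div, add_zero]
      rw [lap_zero hφ, mul_one, mul_inv_cancel₀ hζ]
    have k1 : κ ≤ 1 := min_le_left _ _
    have k2 : κ ≤ ε / 2 := min_le_right _ _
    have hcon := contour hGd hΩ (a := a) (a' := X) (h := h)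
      (B1 := Cφ * Real.exp (-(κ * X))) (B2 := Cφ * Real.exp (-(κ * X))) ha hX0 hh
      (fun z z1 z2 z3 z4 => (hreg z z1 z2 z3 z4).2)
      (by
        intro x x1 x2 y hy
        have y1 : |y| = h := by
          rcases hy with rfl | rfl
          · exact abs_of_pos hh
          · rw [abs_neg]; exact abs_of_pos hh
        have y2 : -h ≤ y ∧ y ≤ h := abs_le.1 y1.le
        have re1 : ((x : ℂ) + (y : ℂ) * I).re = x := by simp
        have im1 : ((x : ℂ) + (y : ℂ) * I).im = y := by simp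
        have n1 := hGn ((x : ℂ) + (y : ℂ) * I) (by rw [re1]; exact x1) (by rw [re1]; exact x2)
          (by rw [im1]; exact y2.1) (by rw [im1]; exact y2.2)
        rw [re1, im1, y1] at n1
        rw [norm_mul, norm_inv]
        have n2 : ‖(x : ℂ) + (y : ℂ) * I‖⁻¹ ≤ 1 := by
          apply inv_le_one_of_one_le₀
          have := Complex.abs_im_le_norm ((x : ℂ) + (y : ℂ) * I)
          rw [im1, y1] at this
          linarith
        have n3 : ‖G ((x : ℂ) + (y : ℂ) * I)‖ ≤ Cφ * Real.exp (-(κ * X)) := by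
          refine n1.trans ?_
          rw [mul_left_comm, ← Real.exp_add]
          apply mul_le_mul_of_nonneg_left _ hCφ.le
          apply Real.exp_le_exp.2
          have m1 : max x 0 ≤ a := max_le x2 ha.le
          have m2 : 0 ≤ ε * max (-x) 0 := mul_nonneg hε.le (le_max_right _ _)
          have m3 : c * (C1 * X) ≤ c * h ^ β := mul_le_mul_of_nonneg_left hhβ hc.le
          have m4 : 2 * X ≤ c * C1 * X := mul_le_mul_of_nonneg_right hC1c hX0.le
          have m5 : (CH + 1) * Λ ≤ C1 * Λ := mul_le_mul_of_nonneg_right hC1f (by linarith)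
          have m6 : a ≤ Λ := haΛ
          have m7 : κ * X ≤ 1 * X := mul_le_mul_of_nonneg_right k1 hX0.le
          linarith
        calc ‖(x : ℂ) + (y : ℂ) * I‖⁻¹ * ‖G ((x : ℂ) + (y : ℂ) * I)‖ ≤
            1 * (Cφ * Real.exp (-(κ * X))) :=
              mul_le_mul n2 n3 (norm_nonneg _) (by norm_num)
          _ = _ := one_mul _)
      (by
        intro y y1 y2
        have re1 : (((-X : ℝ) : ℂ) + (y : ℂ) * I).re = -X := by simp
        have im1 : (((-X : ℝ) : ℂ) + (y : ℂ) * I).im = y := by simp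
        have n1 := hGn (((-X : ℝ) : ℂ) + (y : ℂ) * I) (by rw [re1]) (by rw [re1]; linarith)
          (by rw [im1]; exact y1) (by rw [im1]; exact y2)
        rw [re1, im1, neg_neg, max_eq_right (by linarith : -X ≤ 0), max_eq_left hX0.le] at n1
        rw [norm_mul, norm_inv]
        have n2 : ‖((-X : ℝ) : ℂ) + (y : ℂ) * I‖⁻¹ ≤ 1 := by
          apply inv_le_one_of_one_le₀
          have := Complex.abs_re_le_norm (((-X : ℝ) : ℂ) + (y : ℂ) * I)
          rw [re1, abs_neg, abs_of_pos hX0] at this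
          linarith
        have n3 : ‖G (((-X : ℝ) : ℂ) + (y : ℂ) * I)‖ ≤ Cφ * Real.exp (-(κ * X)) := by
          refine n1.trans ?_
          rw [mul_left_comm, ← Real.exp_add]
          apply mul_le_mul_of_nonneg_left _ hCφ.le
          apply Real.exp_le_exp.2
          have m1 : 0 ≤ c * |y| ^ β := by positivity
          have m2 : 2 * (CH + 1) * Λ ≤ ε * C1 * Λ := mul_le_mul_of_nonneg_right hC1b (by linarith)
          have m3 : ε * (C1 * Λ) ≤ ε * X := mul_le_mul_of_nonneg_left hcase.le hε.le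
          have m4 : κ * X ≤ ε / 2 * X := mul_le_mul_of_nonneg_right k2 hX0.le
          linarith
        calc ‖((-X : ℝ) : ℂ) + (y : ℂ) * I‖⁻¹ * ‖G (((-X : ℝ) : ℂ) + (y : ℂ) * I)‖ ≤
            1 * (Cφ * Real.exp (-(κ * X))) :=
              mul_le_mul n2 n3 (norm_nonneg _) (by norm_num)
          _ = _ := one_mul _)
    rw [hG0] at hcon
    -- Perron
    obtain ⟨p1, p2⟩ := h4 O hRH β φ hβ hφ L a t hLp ha
    set F : ℝ → ℂ := fun K => O.L (cl t) *
      ((O.L (cl t + ((a : ℂ) + (K : ℂ) * I) / (L : ℂ)))⁻¹ *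
        Lap φ ((a : ℂ) + (K : ℂ) * I) / ((a : ℂ) + (K : ℂ) * I)) with hF
    have hFi : Integrable F := p1.const_mul _
    have hFb : ∀ K, ‖F K‖ ≤ Ci * Real.exp (2 * Λ / m) * Real.exp (-(ci * |K| ^ β)) :=
      fun K => hI L hL1 t ht K
    have hFt := tail hFi (M := Ci * Real.exp (2 * Λ / m)) (by positivity) hci hβ hh hFb
    have hFG : ∀ y : ℝ, F y = ((a : ℂ) + (y : ℂ) * I)⁻¹ * G ((a : ℂ) + (y : ℂ) * I) := by
      intro y
      rw [hF, hG]
      simp only
      rw [div_eq_mul_inv]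
      ring
    have hFG' : (∫ y in (-h)..h, ((a : ℂ) + (y : ℂ) * I)⁻¹ * G ((a : ℂ) + (y : ℂ) * I)) =
        ∫ y in (-h)..h, F y := intervalIntegral.integral_congr fun y _ => (hFG y).symm
    rw [hFG'] at hcon
    have hA : O.L (cl t) * AA O.toLFn φ L (cl t) = 1 / (2 * (Real.pi : ℂ)) * ∫ K, F K := by
      rw [p2, hF, integral_const_mul]
      ring
    have hfin : ‖O.L (cl t) * AA O.toLFn φ L (cl t) - 1‖ ≤ M * (1 + D) * Real.exp (-(κ * X)) := by
      have r1 : O.L (cl t) * AA O.toLFn φ L (cl t) - 1 =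
          1 / (2 * (Real.pi : ℂ)) * ((∫ K, F K) - ∫ K in (-h)..h, F K) +
          (1 / (2 * (Real.pi : ℂ)) * (∫ y in (-h)..h, F y) - 1) := by
        rw [hA]; ring
      rw [r1]
      have h8 : ‖(1 / (2 * (Real.pi : ℂ)))‖ ≤ 1 := by
        rw [norm_div, norm_one, norm_mul, Complex.norm_real]
        simp only [Complex.norm_ofNat, Real.norm_eq_abs, abs_of_pos Real.pi_pos]
        rw [div_le_one (by positivity)]
        linarith [Real.pi_gt_three]
      have r2 : ‖1 / (2 * (Real.pi : ℂ)) * ((∫ K, F K) - ∫ K in (-h)..h, F K)‖ ≤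
          Ci * G2 * Real.exp (-(κ * X)) := by
        rw [norm_mul]
        have r3 : Ci * Real.exp (2 * Λ / m) * Real.exp (-(ci / 2 * h ^ β)) ≤
            Ci * Real.exp (-(κ * X)) := by
          rw [mul_assoc, ← Real.exp_add]
          apply mul_le_mul_of_nonneg_left _ hCi.le
          apply Real.exp_le_exp.2
          have m3 : ci / 2 * (C1 * X) ≤ ci / 2 * h ^ β :=
            mul_le_mul_of_nonneg_left hhβ (by positivity)
          have m4 : 4 * X ≤ ci * C1 * X := mul_le_mul_of_nonneg_right hC1e hX0.le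
          have m7 : κ * X ≤ 1 * X := mul_le_mul_of_nonneg_right k1 hX0.le
          have m8 : 2 * Λ / m ≤ Λ := by
            rw [div_le_iff₀ hm0]
            nlinarith
          linarith
        have r4 := hFt.trans (mul_le_mul_of_nonneg_right r3 hG20)
        calc _ ≤ 1 * (Ci * Real.exp (-(κ * X)) * G2) :=
              mul_le_mul h8 r4 (norm_nonneg _) (by norm_num)
          _ = _ := by ring
      have r3 : (a + X) * (Cφ * Real.exp (-(κ * X))) + h * (Cφ * Real.exp (-(κ * X))) ≤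
          D * (Cφ * Real.exp (-(κ * X))) := by
        rw [← add_mul]
        apply mul_le_mul_of_nonneg_right _ (by positivity)
        rw [hhd]
        linarith
      have hE : 0 ≤ Real.exp (-(κ * X)) := (Real.exp_pos _).le
      have r4 := norm_add_le (1 / (2 * (Real.pi : ℂ)) * ((∫ K, F K) - ∫ K in (-h)..h, F K))
          (1 / (2 * (Real.pi : ℂ)) * (∫ y in (-h)..h, F y) - 1)
      have r5 : Ci * G2 * Real.exp (-(κ * X)) + D * (Cφ * Real.exp (-(κ * X))) ≤
          M * (1 + D) * Real.exp (-(κ * X)) := by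
        rw [hM]
        have r6 : (Ci * G2 + Cφ) * (1 + D) * Real.exp (-(κ * X)) =
          Ci * G2 * Real.exp (-(κ * X)) + D * (Cφ * Real.exp (-(κ * X))) +
          (Ci * G2 * D + Cφ) * Real.exp (-(κ * X)) := by ring
        rw [r6]
        have : 0 ≤ (Ci * G2 * D + Cφ) * Real.exp (-(κ * X)) := by positivity
        linarith
      linarith
    have hX' : X = D ^ (β / 2) := rfl
    have h55 := H5 D hDp.le
    rw [← hX'] at h55
    calc ‖O.L (cl t) * AA O.toLFn φ L (cl t) - 1‖ * (1 + D) ≤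
        M * (1 + D) * Real.exp (-(κ * X)) * (1 + D) :=
          mul_le_mul_of_nonneg_right hfin (by positivity)
      _ = M * ((1 + D) ^ 2 * Real.exp (-(κ * X))) := by ring
      _ ≤ M * C5 := mul_le_mul_of_nonneg_left h55 hM0.le
      _ ≤ ((Cp + 1) * C6 + M * C5) * 1 := by
          have : 0 ≤ (Cp + 1) * C6 := by positivity
          linarith
      _ ≤ _ := mul_le_mul_of_nonneg_left hT38 (by positivity)

/-- job DE; the hypotheses are the theorems of `Pool/Agent/Q286/GB/All.lean` -/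
theorem t_DE (h1 : S_RATIO) (h2 : S_LOWB) (h3 : S_UPL) (h4 : S_PRH) (h5 : S_HH) :
    Pool.Agent.Q120.NL.J_DE := by
  intro O hRH m hm
  have hm0 : 0 < m := by linarith
  obtain ⟨β0, hb0, hb1, H⟩ := dec1 h1 h2 h3 h4 h5 O hRH hm
  refine ⟨β0, hb0, hb1, fun β hβ0 hβ1 φ hφ => ?_⟩
  obtain ⟨C, L0, hC, hL0, H1⟩ := H β hβ0 hβ1 φ hφ
  have hη := O.η_pos
  have hη2 := O.η_le
  refine ⟨C / O.η, L0, by positivity, hL0, fun L hL t d ht hd hd1 hz => ?_⟩
  have hLp : 0 < L := by linarith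
  have hmn : 0 < min d O.η := lt_min hd hη
  have hmd : O.η * d ≤ min d O.η := by
    apply le_min
    · nlinarith
    · nlinarith
  have h6 := H1 L hL t (min d O.η) ht hmn (min_le_right _ _) (fun g hg => (min_le_left _ _).trans (hz g hg))
  refine h6.trans ?_
  rw [div_le_div_iff₀ (by positivity) (by positivity)]
  have h7 : O.η * (1 + L * d) ≤ 1 + L * min d O.η := by
    have h8 : L * (O.η * d) ≤ L * min d O.η := mul_le_mul_of_nonneg_left hmd hLp.le
    linarith
  have h8 : 0 ≤ C * (1 + |t|) ^ (6 / m) := by positivity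
  calc C * (1 + |t|) ^ (6 / m) * (1 + L * d) =
        C / O.η * (1 + |t|) ^ (6 / m) * (O.η * (1 + L * d)) := by field_simp
    _ ≤ C / O.η * (1 + |t|) ^ (6 / m) * (1 + L * min d O.η) :=
        mul_le_mul_of_nonneg_left h7 (by positivity)

end Pool.Agent.Q238.NL
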