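import Pool.Agent.Q286.GB.Stm
import Pool.Agent.Q261.BD.Lm
import Pool.Agent.Q120.NL.Stm

set_option autoImplicit false

/-! Project NL (helper120), job LN (helper238): the growth of `L` a little to the left of the critical line. -/

namespace Pool.Agent.Q238.NL

open Complex MeasureTheory Filter Topology Set
open scoped ComplexConjugate
open Pool.Agent.Q286.BD (cl Lam ML)
open Pool.Agent.Q286.GB
open Pool.Agent.Q261.BD (Lam_gt Lam_pos logLam_gt ML_pos ML_le_Lam ML_mul)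

/-- the ratio of gamma factors on horizontal segments -/
theorem gam_seg (O : Obj) : ∃ C : ℝ, 0 < C ∧ ∀ a b t : ℝ, -(O.η / 2) ≤ a → a ≤ b → b ≤ 3 / 2 →
    ‖O.γ (1 / 2 + b + t * I)‖ ≤ ‖O.γ (1 / 2 + a + t * I)‖ * Real.exp (C * Lam t * (b - a)) := by
  obtain ⟨C, hC, hg⟩ := O.γ_ld 2
  refine ⟨C, hC, ?_⟩
  intro a b t ha hab hb
  have hη := O.η_pos
  have hre : ∀ y : ℝ, ((1 / 2 : ℂ) + (y : ℝ) + t * I).re = 1 / 2 + y := by
    intro y; simp
  have him : ∀ y : ℝ, ((1 / 2 : ℂ) + (y : ℝ) + t * I).im = t := by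
    intro y; simp
  have key := norm_le_gronwallBound_of_norm_deriv_right_le
    (f := fun y : ℝ => O.γ (1 / 2 + (y : ℝ) + t * I))
    (f' := fun y : ℝ => deriv O.γ (1 / 2 + (y : ℝ) + t * I))
    (δ := ‖O.γ (1 / 2 + a + t * I)‖) (K := C * Lam t) (ε := 0) (a := a) (b := b) ?_ ?_ ?_ ?_ b ⟨hab, le_rfl⟩
  · rw [gronwallBound_ε0] at key
    exact key
  · intro y hy
    have hd : DifferentiableAt ℂ O.γ (1 / 2 + (y : ℝ) + t * I) := O.γ_diff _ (by rw [hre]; linarith [hy.1])
    have hl : ContinuousAt (fun y : ℝ => (1 / 2 + (y : ℝ) + t * I : ℂ)) y := by fun_prop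
    exact (ContinuousAt.comp (f := fun y : ℝ => (1 / 2 + (y : ℝ) + t * I : ℂ)) hd.continuousAt hl).continuousWithinAt
  · intro y hy
    have hd : DifferentiableAt ℂ O.γ (1 / 2 + (y : ℝ) + t * I) := O.γ_diff _ (by rw [hre]; linarith [hy.1])
    have hl : HasDerivAt (fun z : ℂ => (1 / 2 + z + t * I : ℂ)) 1 ((y : ℝ) : ℂ) := by
      have := ((hasDerivAt_id ((y : ℝ) : ℂ)).const_add (1 / 2)).add_const (t * I)
      simpa using this
    have hc : HasDerivAt (fun z : ℂ => O.γ (1 / 2 + z + t * I))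
        (deriv O.γ (1 / 2 + (y : ℝ) + t * I) * 1) ((y : ℝ) : ℂ) :=
      HasDerivAt.comp (h := fun z : ℂ => (1 / 2 + z + t * I : ℂ)) ((y : ℝ) : ℂ) hd.hasDerivAt hl
    have := hc.comp_ofReal
    simp only [mul_one] at this
    exact this.hasDerivWithinAt
  · exact le_rfl
  · intro y hy
    have := hg (1 / 2 + (y : ℝ) + t * I) (by rw [hre]; linarith [hy.1]) (by rw [hre]; linarith [hy.2])
    rw [him] at this
    rw [add_zero]
    exact this

/-- powers of `|t| + 16` -/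
theorem Lam_pow (ε : ℝ) (hε : 0 < ε) (t : ℝ) :
    Real.exp (ε * Lam t) ≤ 16 ^ ε * (1 + |t|) ^ ε := by
  have h0 : (0 : ℝ) < |t| + 16 := by positivity
  have h1 : Real.exp (ε * Lam t) = (|t| + 16) ^ ε := by
    rw [Real.rpow_def_of_pos h0, mul_comm]
    rfl
  rw [h1, ← Real.mul_rpow (by norm_num) (by positivity)]
  apply Real.rpow_le_rpow h0.le _ hε.le
  linarith [abs_nonneg t]

/-- subpolynomial growth -/
theorem ML_eps (C ε : ℝ) (hC : 0 < C) (hε : 0 < ε) :
    ∃ C' : ℝ, 0 < C' ∧ ∀ t : ℝ, Real.exp (C * ML t) ≤ C' * (1 + |t|) ^ ε := by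
  refine ⟨16 ^ ε + Real.exp (C * Real.exp (C / ε)), by positivity, fun t => ?_⟩
  have hL : 0 < Lam t := Lam_pos t
  have hll := logLam_gt t
  have hML := ML_pos t
  have hpow : (1 : ℝ) ≤ (1 + |t|) ^ ε :=
    Real.one_le_rpow (by linarith [abs_nonneg t]) hε.le
  rcases le_or_gt (C / ε) (Real.log (Lam t)) with h8 | h8
  · have h1 : C * ML t ≤ ε * Lam t := by
      rw [← ML_mul t]
      rw [div_le_iff₀ hε] at h8
      nlinarith
    calc Real.exp (C * ML t) ≤ Real.exp (ε * Lam t) := Real.exp_le_exp.2 h1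
      _ ≤ 16 ^ ε * (1 + |t|) ^ ε := Lam_pow ε hε t
      _ ≤ (16 ^ ε + Real.exp (C * Real.exp (C / ε))) * (1 + |t|) ^ ε := by
          gcongr
          linarith [Real.exp_pos (C * Real.exp (C / ε))]
  · have h1 : Lam t ≤ Real.exp (C / ε) := by
      rw [← Real.log_le_iff_le_exp hL]
      exact h8.le
    have h3 : Real.exp (C * ML t) ≤ Real.exp (C * Real.exp (C / ε)) := by
      apply Real.exp_le_exp.2
      exact mul_le_mul_of_nonneg_left ((ML_le_Lam t).trans h1) hC.le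
    have h4 : (0 : ℝ) < 16 ^ ε := by positivity
    calc Real.exp (C * ML t) ≤ Real.exp (C * Real.exp (C / ε)) := h3
      _ ≤ (16 ^ ε + Real.exp (C * Real.exp (C / ε))) * 1 := by linarith
      _ ≤ (16 ^ ε + Real.exp (C * Real.exp (C / ε))) * (1 + |t|) ^ ε := by gcongr

theorem t_LN (hpos : S_POS) (hfar : S_FAR) : Pool.Agent.Q120.NL.J_LN := by
  intro O hRH ε hε
  obtain ⟨C1, hC1, hseg⟩ := gam_seg O
  obtain ⟨C2, hC2, hf⟩ := hfar O hRH
  obtain ⟨-, hsym, hmon⟩ := hpos O hRH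
  obtain ⟨C3, hC3, h3⟩ := ML_eps (C1 + C2) (ε / 2) (by positivity) (by positivity)
  have hη := O.η_pos
  obtain ⟨h, hh0, hhη, hh8, hhε⟩ : ∃ h : ℝ, 0 < h ∧ h ≤ O.η / 2 ∧ h ≤ 1 / 8 ∧ h * (4 * C1) ≤ ε := by
    refine ⟨min (min (O.η / 2) (1 / 8)) (ε / (4 * C1)), by positivity, (min_le_left _ _).trans (min_le_left _ _),
      (min_le_left _ _).trans (min_le_right _ _), ?_⟩
    have h1 : min (min (O.η / 2) (1 / 8)) (ε / (4 * C1)) ≤ ε / (4 * C1) := min_le_right _ _
    rwa [le_div_iff₀ (by positivity)] at h1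
  refine ⟨h, C3 * 16 ^ (ε / 2), hh0, by linarith, by positivity, fun s hs => ?_⟩
  obtain ⟨x, hx⟩ : ∃ x : ℝ, x = s.re - 1 / 2 := ⟨_, rfl⟩
  obtain ⟨t, ht⟩ : ∃ t : ℝ, t = s.im := ⟨_, rfl⟩
  have hs' : s = 1 / 2 + x + t * I := by
    apply Complex.ext <;> simp [hx, ht]
  rw [← ht]
  have hxh : -h ≤ x := by rw [hx]; linarith
  have hll := logLam_gt t
  have hL := Lam_pos t
  have hM := ML_pos t
  obtain ⟨v0, hv0⟩ : ∃ v0 : ℝ, v0 = 1 / Real.log (Lam t) := ⟨_, rfl⟩
  have hv0pos : 0 < v0 := by rw [hv0]; positivity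
  have hv0le : v0 ≤ 1 := by
    rw [hv0, div_le_one (by linarith)]
    exact hll.le
  have hv0M : v0 * Lam t = ML t := by
    rw [hv0]
    unfold ML
    ring
  have hfar' : ∀ v : ℝ, v0 ≤ v → ‖O.L (1 / 2 + v + t * I)‖ ≤ Real.exp (C2 * ML t) := by
    intro v hv
    rw [hv0] at hv
    have h1 := hf t v hv
    rcases (norm_nonneg (O.L (1 / 2 + v + t * I))).eq_or_lt with h0 | h0
    · rw [← h0]
      positivity
    · rw [← Real.log_le_iff_le_exp h0]
      exact (le_abs_self _).trans h1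
  have main : ‖O.L s‖ ≤ Real.exp ((C1 + C2) * ML t) * Real.exp (ε / 2 * Lam t) := by
    rcases le_or_gt v0 x with hvx | hvx
    · rw [hs']
      calc _ ≤ Real.exp (C2 * ML t) := hfar' x hvx
        _ ≤ Real.exp ((C1 + C2) * ML t + ε / 2 * Lam t) := by
            apply Real.exp_le_exp.2
            have : 0 ≤ C1 * ML t := by positivity
            have : 0 ≤ ε / 2 * Lam t := by positivity
            linarith
        _ = _ := Real.exp_add _ _
    · obtain ⟨v1, hv1⟩ : ∃ v1 : ℝ, v1 = max v0 |x| := ⟨_, rfl⟩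
      have hv1a : v0 ≤ v1 := by rw [hv1]; exact le_max_left _ _
      have hv1b : |x| ≤ v1 := by rw [hv1]; exact le_max_right _ _
      have hxx : x ≤ v1 := (le_abs_self x).trans hv1b
      have hv1c : v1 ≤ 3 / 2 := by
        rw [hv1]
        apply max_le (by linarith)
        rw [abs_le]
        constructor <;> linarith
      have hv1d : v1 - x ≤ v0 + 2 * h := by
        have : v1 ≤ v0 + 2 * h + x := by
          rw [hv1]
          apply max_le (by linarith)
          rw [abs_le]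
          constructor <;> linarith
        linarith
      have hX1 : ‖O.X (1 / 2 + x + t * I)‖ = ‖O.X (1 / 2 + (|x| : ℝ) + t * I)‖ := by
        rcases abs_cases x with ⟨h1, h2⟩ | ⟨h1, h2⟩
        · rw [h1]
        · rw [h1, ← hsym (-x) t]
          congr 3
          push_cast
          ring
      have hX2 := hmon |x| v1 t (abs_nonneg x) hv1b
      have hre : ∀ y : ℝ, ((1 / 2 : ℂ) + (y : ℝ) + t * I).re = 1 / 2 + y := by
        intro y; simp
      have e1 := O.eq (1 / 2 + x + t * I) (by rw [hre]; linarith)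
      have e2 := O.eq (1 / 2 + v1 + t * I) (by rw [hre]; linarith)
      have hgne := O.γ_ne (1 / 2 + x + t * I) (by rw [hre]; linarith)
      have hgpos : 0 < ‖O.γ (1 / 2 + x + t * I)‖ := norm_pos_iff.mpr hgne
      have hg := hseg x v1 t (by linarith) hxx hv1c
      rw [← hX1, e1, e2, norm_mul, norm_mul] at hX2
      have h4 : ‖O.γ (1 / 2 + x + t * I)‖ * ‖O.L (1 / 2 + x + t * I)‖ ≤
          ‖O.γ (1 / 2 + x + t * I)‖ * (Real.exp (C1 * Lam t * (v1 - x)) * Real.exp (C2 * ML t)) := by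
        calc _ ≤ _ := hX2
          _ ≤ (‖O.γ (1 / 2 + x + t * I)‖ * Real.exp (C1 * Lam t * (v1 - x))) * Real.exp (C2 * ML t) :=
            mul_le_mul hg (hfar' v1 hv1a) (norm_nonneg _) (by positivity)
          _ = _ := by ring
      have h5 := le_of_mul_le_mul_left h4 hgpos
      rw [hs']
      refine h5.trans ?_
      rw [← Real.exp_add, ← Real.exp_add]
      apply Real.exp_le_exp.2
      have h6 : C1 * Lam t * (v1 - x) ≤ C1 * Lam t * (v0 + 2 * h) :=
        mul_le_mul_of_nonneg_left hv1d (by positivity)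
      have h7 : C1 * Lam t * (v0 + 2 * h) = C1 * ML t + (h * (4 * C1)) / 2 * Lam t := by
        rw [← hv0M]
        ring
      have h8 : (h * (4 * C1)) / 2 * Lam t ≤ ε / 2 * Lam t := by
        apply mul_le_mul_of_nonneg_right _ hL.le
        linarith
      linarith
  have h9 : (0 : ℝ) < 1 + |t| := by positivity
  calc ‖O.L s‖ ≤ _ := main
    _ ≤ (C3 * (1 + |t|) ^ (ε / 2)) * (16 ^ (ε / 2) * (1 + |t|) ^ (ε / 2)) :=
      mul_le_mul (h3 t) (Lam_pow (ε / 2) (by positivity) t) (Real.exp_pos _).le (by positivity)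
    _ = C3 * 16 ^ (ε / 2) * ((1 + |t|) ^ (ε / 2) * (1 + |t|) ^ (ε / 2)) := by ring
    _ = C3 * 16 ^ (ε / 2) * (1 + |t|) ^ ε := by
      rw [← Real.rpow_add h9]
      congr 2
      ring

end Pool.Agent.Q238.NL
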