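import Pool.Agent.Q211.GB.Dec

/-!
# Project NL (helper120), job DE: the bound for the integrand of Perron's formula, abscissa `Λ / m`
(`Pool/Agent/Q211/GB/Dec.lean` with `m ≥ 16` in place of `16`)
-/

set_option autoImplicit false

namespace Pool.Agent.Q238.NL

open Complex MeasureTheory Filter Topology Set
open Pool.Agent.Q286.BD (cl Lam ML Lap Wt V Fm)
open Pool.Agent.Q286.GB
open Pool.Agent.Q296.BD (pz pz_eq pz_eq' Lam_ge Lam_two logLam ML_le ML_nonneg exp_Lam bdd_of_ev ev_log_le f2 f3 f4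
  integrable_gev exp_Lam_le lap_zero lap_diff contour tail poly_exp)

/-- `log (2 + m K)` against `log (2 + 16 K)` -/
lemma lgm {m K : ℝ} (hm : 16 ≤ m) (hK : 0 ≤ K) :
    Real.log (2 + m * K) ≤ (1 + Real.log (m / 16) / Real.log 2) * Real.log (2 + 16 * K) := by
  have h1 : Real.log (2 + m * K) ≤ Real.log (m / 16) + Real.log (2 + 16 * K) := by
    rw [← Real.log_mul (by positivity) (by positivity)]
    apply Real.log_le_log (by positivity)
    have : (m / 16) * (2 + 16 * K) = m / 8 + m * K := by ring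
    rw [this]
    linarith
  have h2 : 0 < Real.log 2 := Real.log_pos (by norm_num)
  have h3 : Real.log 2 ≤ Real.log (2 + 16 * K) :=
    Real.log_le_log (by norm_num) (by linarith)
  have h4 : 0 ≤ Real.log (m / 16) := Real.log_nonneg (by linarith)
  have h5 : Real.log (m / 16) ≤ Real.log (m / 16) / Real.log 2 * Real.log (2 + 16 * K) := by
    rw [div_mul_eq_mul_div, le_div_iff₀ h2]
    exact mul_le_mul_of_nonneg_left h3 h4
  linarith

/-- the quotient of two values -/
theorem ratio_bound (h1 : S_RATIO) (h2 : S_LOWB) (h3 : S_UPL) (O : Obj) (hRH : RH O.toLFn) {m : ℝ}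
    (hm : 16 ≤ m) :
    ∃ β0 : ℝ, 0 < β0 ∧ β0 < 1 ∧ ∀ β : ℝ, β0 < β → β < 1 → ∀ c : ℝ, 0 < c → ∃ C1 : ℝ, 0 ≤ C1 ∧
      ∀ L : ℝ, 1 ≤ L → ∀ t : ℝ, |t| ≤ Real.exp ((m - 6) * L) → ∀ K : ℝ,
      ‖O.L (cl t)‖ * ‖(O.L (pz L (Lam t / m) t K))⁻¹‖ ≤
        Real.exp (Lam t / m + c / 2 * |K| ^ β + C1) := by
  obtain ⟨CR, hCR, hR⟩ := h1 O hRH
  obtain ⟨Cb, hCb, hb⟩ := h2 O hRH
  obtain ⟨Cu, hCu, hu⟩ := h3 O hRH
  have hm0 : 0 < m := by linarith
  have hd : (0 : ℝ) < 2 * m * CR + 1 := by positivity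
  refine ⟨2 * m * CR / (2 * m * CR + 1), by positivity, by rw [div_lt_one hd]; linarith,
    fun β hβ0 hβ1 c hc => ?_⟩
  set β0 : ℝ := 2 * m * CR / (2 * m * CR + 1) with hβ0d
  have hβ0p : 0 < β0 := by rw [hβ0d]; positivity
  set β1 : ℝ := (β0 + β) / 2 with hβ1d
  have hb01 : β0 < β1 := by rw [hβ1d]; linarith
  have hb1 : β1 < β := by rw [hβ1d]; linarith
  have hb1p : 0 < β1 := by linarith
  have hb11 : β1 < 1 := by linarith
  have hexp : CR * (1 / β1 - 1) ≤ 1 / (2 * m) := by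
    have h4 : 1 / β1 ≤ 1 / β0 := one_div_le_one_div_of_le hβ0p hb01.le
    have h5 : 1 / β0 = 1 + 1 / (2 * m * CR) := by
      rw [hβ0d]; field_simp
    have h6 : CR * (1 / β1 - 1) ≤ CR * (1 / (2 * m * CR)) :=
      mul_le_mul_of_nonneg_left (by linarith) hCR.le
    have h7 : CR * (1 / (2 * m * CR)) = 1 / (2 * m) := by field_simp
    linarith
  have hexp0 : 0 ≤ 1 / β1 - 1 := by
    have : 1 ≤ 1 / β1 := by rw [le_div_iff₀ hb1p]; linarith
    linarith
  obtain ⟨CA, hCA0, hCA⟩ := f2 (CR * Real.log (2 + m)) (1 / (2 * m))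
    (mul_nonneg hCR.le (Real.log_nonneg (by linarith))) (by positivity)
  obtain ⟨cm, hcm⟩ : ∃ cm : ℝ, cm = 1 + Real.log (m / 16) / Real.log 2 := ⟨_, rfl⟩
  have hcm0 : 0 ≤ cm := by
    have : 0 ≤ Real.log (m / 16) / Real.log 2 :=
      div_nonneg (Real.log_nonneg (by linarith)) (Real.log_nonneg (by norm_num))
    linarith
  obtain ⟨CB, hCB0, hCB⟩ := f3 (CR * cm) β1 β (c / 2) (by positivity) hb1p hb1 (by linarith)
  obtain ⟨CC, hCC0, hCC⟩ := f4 (Cb * cm) Cu β (c / 2) (by positivity) hCu.le (by linarith) (by linarith)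
  refine ⟨CA + CB + CC, by positivity, fun L hL t ht K => ?_⟩
  have hL0 : 0 < L := by linarith
  have hΛ := Lam_two t
  have hΛe := Lam_ge t
  have hlΛ := logLam t
  set Λ := Lam t with hΛd
  set a := Λ / m with had
  have ha0 : 0 < a := by rw [had]; positivity
  have hΛL : Λ ≤ m * L := by
    have h4 : |t| + 16 ≤ Real.exp (m * L) := by
      have h5 : Real.exp (m * L) = Real.exp ((m - 6) * L) * Real.exp (6 * L) := by
        rw [← Real.exp_add]; congr 1; ring
      have h6 : (17 : ℝ) ≤ Real.exp (6 * L) := by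
        have h7 : Real.exp 6 ≤ Real.exp (6 * L) := Real.exp_le_exp.2 (by linarith)
        have h8 : Real.exp 6 = Real.exp 1 ^ 6 := by
          rw [← Real.exp_nat_mul]; norm_num
        have h9 : (2 : ℝ) ^ 6 ≤ Real.exp 1 ^ 6 :=
          pow_le_pow_left₀ (by norm_num) (by linarith [Real.exp_one_gt_d9]) 6
        norm_num at h9
        linarith
      have h7 : 1 ≤ Real.exp ((m - 6) * L) :=
        Real.one_le_exp (mul_nonneg (by linarith) (by linarith))
      rw [h5]
      nlinarith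
    have : Λ = Real.log (|t| + 16) := rfl
    rw [this, Real.log_le_iff_le_exp (by positivity)]
    exact h4
  have hx0 : 0 < a / L := by positivity
  have hx1 : a / L ≤ 1 := by
    rw [div_le_one hL0, had, div_le_iff₀ hm0]; linarith
  have hpw0 : 0 ≤ |K| ^ β := Real.rpow_nonneg (abs_nonneg _) _
  by_cases hK : |K| ≤ L * (1 + |t| / 2)
  · -- the ratio bound
    have hy : |K / L| ≤ 1 + |t| / 2 := by
      rw [abs_div, abs_of_pos hL0, div_le_iff₀ hL0]
      linarith
    have h4 := hR t (K / L) (a / L) hx0 hx1 hy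
    rw [← pz_eq hL0] at h4
    have h5 : |K / L| / (a / L) = m * |K| / Λ := by
      rw [abs_div, abs_of_pos hL0, had]
      field_simp
    rw [h5] at h4
    have h6 : ‖O.L (cl t)‖ * ‖(O.L (pz L a t K))⁻¹‖ ≤
        Real.exp (CR * ML t * Real.log (2 + m * |K| / Λ)) := by
      rw [norm_inv]
      rcases (norm_nonneg (O.L (pz L a t K))).eq_or_lt with h | h
      · rw [← h]; simp; positivity
      · rw [← div_eq_mul_inv, div_le_iff₀ h]; exact h4
    refine h6.trans (Real.exp_le_exp.2 ?_)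
    rcases le_total |K| (Λ ^ (1 / β1)) with h7 | h7
    · have h8 : 2 + m * |K| / Λ ≤ (2 + m) * Λ ^ (1 / β1 - 1) := by
        have h9 : |K| / Λ ≤ Λ ^ (1 / β1 - 1) := by
          rw [Real.rpow_sub_one (by positivity)]
          exact div_le_div_of_nonneg_right h7 (by positivity)
        have h10 : 1 ≤ Λ ^ (1 / β1 - 1) := Real.one_le_rpow (by linarith) hexp0
        rw [mul_div_assoc]
        have h11 : m * (|K| / Λ) ≤ m * Λ ^ (1 / β1 - 1) := mul_le_mul_of_nonneg_left h9 hm0.le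
        linarith
      have h9 : Real.log (2 + m * |K| / Λ) ≤ Real.log (2 + m) + (1 / β1 - 1) * Real.log Λ := by
        refine (Real.log_le_log (by positivity) h8).trans (le_of_eq ?_)
        rw [Real.log_mul (by positivity) (by positivity), Real.log_rpow (by positivity)]
      have h10 : CR * ML t * Real.log (2 + m * |K| / Λ) ≤
          CR * ML t * (Real.log (2 + m) + (1 / β1 - 1) * Real.log Λ) :=
        mul_le_mul_of_nonneg_left h9 (mul_nonneg hCR.le (ML_nonneg t))
      have h11 : ML t * Real.log Λ = Λ := by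
        unfold ML
        rw [← hΛd]
        field_simp
      have h12 : CR * ML t * (Real.log (2 + m) + (1 / β1 - 1) * Real.log Λ) =
          CR * Real.log (2 + m) * ML t + CR * (1 / β1 - 1) * Λ := by
        rw [show CR * (1 / β1 - 1) * Λ = CR * (1 / β1 - 1) * (ML t * Real.log Λ) by rw [h11]]
        ring
      have h13 := hCA t
      rw [← hΛd] at h13
      have h14 : CR * (1 / β1 - 1) * Λ ≤ 1 / (2 * m) * Λ :=
        mul_le_mul_of_nonneg_right hexp (by linarith)
      have h15 : 0 ≤ c / 2 * |K| ^ β := by positivity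
      have h16 : 1 / (2 * m) * Λ + 1 / (2 * m) * Λ = Λ / m := by field_simp; norm_num
      linarith
    · have hΛK : Λ ≤ |K| ^ β1 := by
        have h8 : (Λ ^ (1 / β1)) ^ β1 ≤ |K| ^ β1 :=
          Real.rpow_le_rpow (by positivity) h7 hb1p.le
        rwa [← Real.rpow_mul (by positivity), one_div_mul_cancel hb1p.ne', Real.rpow_one] at h8
      have h8 : Real.log (2 + m * |K| / Λ) ≤ cm * Real.log (2 + 16 * |K|) := by
        have : m * |K| / Λ ≤ m * |K| := div_le_self (by positivity) (by linarith)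
        have h8b : Real.log (2 + m * |K| / Λ) ≤ Real.log (2 + m * |K|) :=
          Real.log_le_log (by positivity) (by linarith)
        rw [hcm]
        exact h8b.trans (lgm hm (abs_nonneg K))
      have h8' : 0 ≤ Real.log (2 + m * |K| / Λ) := by
        apply Real.log_nonneg
        have : 0 ≤ m * |K| / Λ := by positivity
        linarith
      have h9 : CR * ML t * Real.log (2 + m * |K| / Λ) ≤
          CR * |K| ^ β1 * (cm * Real.log (2 + 16 * |K|)) := by
        apply mul_le_mul _ h8 h8' (by positivity)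
        exact mul_le_mul_of_nonneg_left ((ML_le t).trans hΛK) hCR.le
      have h9b : CR * |K| ^ β1 * (cm * Real.log (2 + 16 * |K|)) =
          CR * cm * |K| ^ β1 * Real.log (2 + 16 * |K|) := by ring
      have h10 := hCB |K| (abs_nonneg K)
      linarith
  · -- far away
    push Not at hK
    have hKL : L ≤ |K| := by nlinarith [abs_nonneg t]
    have htK : |t| ≤ 2 * |K| := by
      have : L * (|t| / 2) ≤ |K| := by nlinarith [abs_nonneg t]
      nlinarith [abs_nonneg t]
    have h4 := hu t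
    have h5 := hb (t + K / L) (a / L) hx0
    rw [← pz_eq' hL0] at h5
    have hK16 : (0 : ℝ) < 3 * |K| + 16 := by positivity
    have h6 : Λ ≤ Real.log (3 * |K| + 16) := by
      have : Λ = Real.log (|t| + 16) := rfl
      rw [this]
      exact Real.log_le_log (by positivity) (by linarith [abs_nonneg K])
    have h7 : Lam (t + K / L) ≤ Real.log (3 * |K| + 16) := by
      unfold Lam
      apply Real.log_le_log (by positivity)
      have h8 : |t + K / L| ≤ |t| + |K / L| := abs_add_le _ _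
      have h9 : |K / L| ≤ |K| := by
        rw [abs_div, abs_of_pos hL0]
        exact div_le_self (abs_nonneg _) hL
      linarith
    have h8 : Real.log (2 + 1 / (a / L)) ≤ cm * Real.log (2 + 16 * |K|) := by
      have h9 : 1 / (a / L) ≤ m * |K| := by
        rw [one_div_div, had, div_div_eq_mul_div, div_le_iff₀ (by linarith)]
        have h9b : L * m ≤ m * |K| := by nlinarith
        have h9c : 0 ≤ m * |K| := by positivity
        nlinarith
      have h8b : Real.log (2 + 1 / (a / L)) ≤ Real.log (2 + m * |K|) :=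
        Real.log_le_log (by positivity) (by linarith)
      rw [hcm]
      exact h8b.trans (lgm hm (abs_nonneg K))
    have h8' : 0 ≤ Real.log (2 + 1 / (a / L)) := by
      apply Real.log_nonneg
      have : 0 ≤ 1 / (a / L) := by positivity
      linarith
    have h9 : ‖O.L (cl t)‖ ≤ Real.exp (Cu * Real.log (3 * |K| + 16)) :=
      h4.trans (Real.exp_le_exp.2 (mul_le_mul_of_nonneg_left ((ML_le t).trans h6) hCu.le))
    have h10 : ‖(O.L (pz L a t K))⁻¹‖ ≤
        Real.exp (Cb * Real.log (3 * |K| + 16) * (cm * Real.log (2 + 16 * |K|))) := by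
      rw [norm_inv]
      have h11 : Real.exp (-(Cb * Real.log (3 * |K| + 16) * (cm * Real.log (2 + 16 * |K|)))) ≤
          ‖O.L (pz L a t K)‖ := by
        refine le_trans (Real.exp_le_exp.2 ?_) h5
        have h12 : Cb * Lam (t + K / L) * Real.log (2 + 1 / (a / L)) ≤
            Cb * Real.log (3 * |K| + 16) * (cm * Real.log (2 + 16 * |K|)) := by
          apply mul_le_mul _ h8 h8'
          · exact mul_nonneg hCb.le (Real.log_nonneg (by linarith [abs_nonneg K]))
          · exact mul_le_mul_of_nonneg_left h7 hCb.le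
        linarith
      have h12 := inv_anti₀ (Real.exp_pos _) h11
      rwa [← Real.exp_neg, neg_neg] at h12
    refine (mul_le_mul h9 h10 (norm_nonneg _) (Real.exp_pos _).le).trans ?_
    rw [← Real.exp_add]
    apply Real.exp_le_exp.2
    have h11 := hCC |K| (abs_nonneg K)
    have : 0 ≤ Λ / m := by positivity
    have h13 : Cb * Real.log (3 * |K| + 16) * (cm * Real.log (2 + 16 * |K|)) =
        Cb * cm * Real.log (3 * |K| + 16) * Real.log (2 + 16 * |K|) := by ring
    linarith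

/-- **the integrand bound** -/
theorem ib (h1 : S_RATIO) (h2 : S_LOWB) (h3 : S_UPL) (O : Obj) (hRH : RH O.toLFn) {m : ℝ}
    (hm : 16 ≤ m) :
    ∃ β0 : ℝ, 0 < β0 ∧ β0 < 1 ∧ ∀ β : ℝ, β0 < β → β < 1 → ∀ φ : ℝ → ℝ, Wt β φ →
      ∃ C c : ℝ, 0 < C ∧ 0 < c ∧
      ∀ L : ℝ, 1 ≤ L → ∀ t : ℝ, |t| ≤ Real.exp ((m - 6) * L) → ∀ K : ℝ,
      ‖O.L (cl t) * ((O.L (cl t + (((Lam t / m : ℝ) : ℂ) + (K : ℂ) * I) / (L : ℂ)))⁻¹ *
        Lap φ (((Lam t / m : ℝ) : ℂ) + (K : ℂ) * I) / (((Lam t / m : ℝ) : ℂ) + (K : ℂ) * I))‖ ≤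
        C * Real.exp (2 * Lam t / m) * Real.exp (-(c * |K| ^ β)) := by
  have hm0 : 0 < m := by linarith
  obtain ⟨β0, hb0, hb1, H⟩ := ratio_bound h1 h2 h3 O hRH hm
  refine ⟨β0, hb0, hb1, fun β hβ0 hβ1 φ hφ => ?_⟩
  obtain ⟨ε, Cφ, c, hε, hCφ, hc, hdec⟩ := hφ.dec
  obtain ⟨C1, hC1, H1⟩ := H β hβ0 hβ1 c hc
  refine ⟨m * Cφ * Real.exp C1, c / 2, by positivity, by positivity, fun L hL t ht K => ?_⟩
  have h4 := H1 L hL t ht K
  have hΛ := Lam_two t
  set a : ℝ := Lam t / m with had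
  have ha : 1 / m ≤ a := by
    rw [had]; exact div_le_div_of_nonneg_right (by linarith) hm0.le
  have ha0 : 0 < a := lt_of_lt_of_le (by positivity) ha
  have h5 := hdec ((a : ℂ) + (K : ℂ) * I)
  have hre : ((a : ℂ) + (K : ℂ) * I).re = a := by simp
  have him : ((a : ℂ) + (K : ℂ) * I).im = K := by simp
  rw [hre, him, max_eq_left ha0.le,
    max_eq_right (by linarith : -a ≤ 0)] at h5
  have h6 : ‖((a : ℂ) + (K : ℂ) * I)⁻¹‖ ≤ m := by
    rw [norm_inv]
    have h7 : 1 / m ≤ ‖(a : ℂ) + (K : ℂ) * I‖ := by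
      have := Complex.abs_re_le_norm ((a : ℂ) + (K : ℂ) * I)
      rw [hre, abs_of_pos ha0] at this
      linarith
    have := inv_anti₀ (by positivity : (0 : ℝ) < 1 / m) h7
    rwa [one_div, inv_inv] at this
  have h7 : O.L (cl t) * ((O.L (cl t + ((a : ℂ) + (K : ℂ) * I) / (L : ℂ)))⁻¹ *
        Lap φ ((a : ℂ) + (K : ℂ) * I) / ((a : ℂ) + (K : ℂ) * I)) =
      (O.L (cl t) * (O.L (pz L a t K))⁻¹) * Lap φ ((a : ℂ) + (K : ℂ) * I) *
        ((a : ℂ) + (K : ℂ) * I)⁻¹ := by
    unfold pz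
    rw [div_eq_mul_inv]
    ring
  rw [h7, norm_mul, norm_mul, norm_mul]
  have h8 : ‖O.L (cl t)‖ * ‖(O.L (pz L a t K))⁻¹‖ *
      ‖Lap φ ((a : ℂ) + (K : ℂ) * I)‖ * ‖((a : ℂ) + (K : ℂ) * I)⁻¹‖ ≤
      Real.exp (a + c / 2 * |K| ^ β + C1) * (Cφ * Real.exp (a - ε * 0 - c * |K| ^ β)) * m := by
    apply mul_le_mul _ h6 (norm_nonneg _) (by positivity)
    exact mul_le_mul h4 h5 (norm_nonneg _) (Real.exp_pos _).le
  refine h8.trans (le_of_eq ?_)
  have h9 : Real.exp (a + c / 2 * |K| ^ β + C1) * (Cφ * Real.exp (a - ε * 0 - c * |K| ^ β)) * m =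
      m * Cφ * (Real.exp (a + c / 2 * |K| ^ β + C1) * Real.exp (a - ε * 0 - c * |K| ^ β)) := by ring
  rw [h9, ← Real.exp_add]
  have h10 : Real.exp (a + c / 2 * |K| ^ β + C1 + (a - ε * 0 - c * |K| ^ β)) =
      Real.exp C1 * Real.exp (2 * Lam t / m) * Real.exp (-(c / 2 * |K| ^ β)) := by
    rw [← Real.exp_add, ← Real.exp_add]
    congr 1
    rw [had]
    ring
  rw [h10]
  ring

end Pool.Agent.Q238.NL
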